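import Pool.Agent.H71.O2.K1

set_option autoImplicit false

/-!
A simple automorphic loop with a nontrivial element in the middle nucleus is associative.
-/

namespace ALoop

open Equiv

variable {Q : Type*} {G : Subgroup (Perm Q)} {L : Q → Perm Q} {J : Perm Q} {e : Q}

/-- a nontrivial element of the middle nucleus -/
theorem AL.assoc_of_mid (h : AL G L J e) {s : Q} (hs : s ≠ e)
    (hmid : ∀ a b, L (L a s) b = L a (L s b)) : Assoc L := by
  have h0 := h.al0
  let N : Q → Prop := fun n => ∀ a, L (L a n) = L a * L n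
  have hNe : N e := fun a => by rw [h.Le, h0.Le1, mul_one]
  have hNs : N s := fun a => by
    ext b; exact hmid a b
  -- products
  have hNm : ∀ n m, N n → N m → N (L n m) := by
    intro n m hn hm a
    have h1 : L a (L n m) = L (L a n) m := by rw [hn a]; rfl
    rw [h1, hm, hn, hm n, mul_assoc]
  -- right translations
  have hR : ∀ n, N n → ∀ a, L (L a (J n)) n = a := by
    intro n hn
    have h1 : ∀ a, L (L a n) (J n) = a := by
      intro a
      rw [hn a, Perm.mul_apply, h.LJ, h.Le]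
    intro a
    have h2 : Rt L J (J n) * Rt L J n = 1 := by
      ext x
      rw [Perm.mul_apply, h0.Rt_app, h0.Rt_app, h1]; rfl
    have h3 : Rt L J n * Rt L J (J n) = 1 := by
      rw [mul_eq_one_iff_eq_inv] at h2 ⊢
      rw [h2, inv_inv]
    have h4 := congrArg (fun p : Perm Q => p a) h3
    simp only [Perm.mul_apply] at h4
    rw [h0.Rt_app, h0.Rt_app] at h4
    exact h4
  have hLJn : ∀ n, N n → L (J n) = (L n)⁻¹ := by
    intro n hn
    have h1 := hn (J n)
    rw [h0.JL, h0.Le1] at h1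
    exact eq_inv_of_mul_eq_one_left h1.symm
  have hNJ : ∀ n, N n → N (J n) := by
    intro n hn a
    have h1 := hn (L a (J n))
    rw [hR n hn a] at h1
    rw [hLJn n hn]
    exact (mul_inv_eq_iff_eq_mul.2 h1).symm
  have hNH : ∀ g ∈ G, g e = e → ∀ n, N n → N (g n) := by
    intro g hg hge n hn a
    have e1 : ∀ x, L (g x) = g * L x * g⁻¹ := fun x => (h.equi g hg hge x).symm
    have h1 : L a (g n) = g (L (g⁻¹ a) n) := by
      have h2 : L a = g * L (g⁻¹ a) * g⁻¹ := by
        rw [← e1, apply_inv']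
      rw [h2, Perm.mul_apply, Perm.mul_apply, inv_apply']
    rw [h1, e1, hn, e1]
    have h2 : L a = g * L (g⁻¹ a) * g⁻¹ := by
      rw [← e1, apply_inv']
    calc g * (L (g⁻¹ a) * L n) * g⁻¹ = (g * L (g⁻¹ a) * g⁻¹) * (g * L n * g⁻¹) := by group
      _ = _ := by rw [← h2]
  -- the relation
  have hprod : ∀ x y, N ((L x)⁻¹ y) → L y = L x * L ((L x)⁻¹ y) := by
    intro x y hn
    have h1 := hn x
    rw [apply_inv'] at h1
    exact h1
  have heq : Equivalence (fun x y => N ((L x)⁻¹ y)) := by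
    refine ⟨fun x => ?_, fun {x y} hxy => ?_, fun {x y z} hxy hyz => ?_⟩
    · have : (L x)⁻¹ x = e := by rw [Perm.inv_eq_iff_eq, h.Le]
      rw [this]; exact hNe
    · have h1 := hprod x y hxy
      have h2 : (L y)⁻¹ x = J ((L x)⁻¹ y) := by
        rw [h1, mul_inv_rev, Perm.mul_apply]
        have h3 : (L x)⁻¹ x = e := by rw [Perm.inv_eq_iff_eq, h.Le]
        rw [h3, h0.L_inv_e]
      rw [h2]
      exact hNJ _ hxy
    · have h1 := hprod x y hxy
      have h2 : (L x)⁻¹ z = L ((L x)⁻¹ y) ((L y)⁻¹ z) := by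
        rw [Perm.inv_eq_iff_eq, ← Perm.mul_apply, ← h1, apply_inv']
      rw [h2]
      exact hNm _ _ hxy hyz
  have hinv : ∀ g ∈ G, ∀ x y, N ((L x)⁻¹ y) → N ((L (g x))⁻¹ (g y)) := by
    intro g hg x y hxy
    have hk : (L (g x))⁻¹ * g * L x ∈ G :=
      G.mul_mem (G.mul_mem (G.inv_mem (h.memL _)) hg) (h.memL _)
    have hke : ((L (g x))⁻¹ * g * L x) e = e := by
      rw [Perm.mul_apply, Perm.mul_apply, h.Le, Perm.inv_eq_iff_eq, h.Le]
    have h1 := hNH _ hk hke _ hxy
    have h2 : ((L (g x))⁻¹ * g * L x) ((L x)⁻¹ y) = (L (g x))⁻¹ (g y) := by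
      rw [Perm.mul_apply, Perm.mul_apply, apply_inv']
    rwa [h2] at h1
  rcases h.prim (fun x y => N ((L x)⁻¹ y)) heq hinv with hr | hr
  · exfalso
    apply hs
    have h1 : N ((L e)⁻¹ s) := by rw [h0.Le1]; exact hNs
    exact (hr e s h1).symm
  · intro x y z
    have h1 := hr e y
    rw [h0.Le1] at h1
    have h2 : N y := h1
    rw [h2 x]; rfl

/-- if all commutators are in the middle nucleus then the loop is commutative or associative -/
theorem AL.comm_or_assoc (h : AL G L J e)
    (hmid : ∀ u x v z, L (L v ((L x)⁻¹ (Tx L J u x))) z = L v (L ((L x)⁻¹ (Tx L J u x)) z)) :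
    (∀ x, Rt L J x = L x) ∨ Assoc L := by
  by_cases hc : ∀ u x, Tx L J u x = x
  · left
    intro u
    have h1 : Tx L J u = 1 := by ext x; exact hc u x
    have h2 := h.al0.L_eq u
    rw [h1, one_mul] at h2
    exact h2.symm
  · right
    push Not at hc
    obtain ⟨u, x, hux⟩ := hc
    refine h.assoc_of_mid (s := (L x)⁻¹ (Tx L J u x)) (fun hs => hux ?_) (fun a b => hmid u x a b)
    rw [Perm.inv_eq_iff_eq, h.Le] at hs
    exact hs

end ALoop
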