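import Pool.Agent.H71.TP.Basic
import Pool.Agent.H4.Loop.Basic

set_option autoImplicit false

/-!
Exact identities for general automorphic loops (helper98's K1, K2 in general form).
-/

namespace ALoop

open Equiv

variable {Q : Type*} {G : Subgroup (Perm Q)} {L : Q → Perm Q} {J : Perm Q} {e : Q}

/-- a simple automorphic loop is an automorphic loop -/
theorem AL.al0 (h : AL G L J e) : AL0 G L J e :=
  ⟨h.memL, h.Le, h.Je, h.JJ, h.LJ, h.aaip, h.equi, h.comJ, h.JG⟩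

/-- right translations -/
def Rt (L : Q → Perm Q) (J : Perm Q) (x : Q) : Perm Q := J * L (J x) * J

/-- `th(a, b)` -/
def Th (L : Q → Perm Q) (J : Perm Q) (a b : Q) : Perm Q :=
  (L a)⁻¹ * (Rt L J b)⁻¹ * L a * Rt L J b

/-- `T_x = L_x R_x⁻¹` -/
def Tx (L : Q → Perm Q) (J : Perm Q) (x : Q) : Perm Q := L x * (Rt L J x)⁻¹

namespace AL0

theorem memR (h : AL0 G L J e) (x : Q) : Rt L J x ∈ G := h.JG _ (h.memL _)

theorem Rt_e (h : AL0 G L J e) (x : Q) : Rt L J x e = x := by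
  unfold Rt
  rw [Perm.mul_apply, Perm.mul_apply, h.Je, h.Le, h.JJ]

theorem Rt_app (h : AL0 G L J e) (x y : Q) : Rt L J x y = L y x := by
  unfold Rt
  have := h.aaip (J x) (J y)
  rw [h.JJ, h.JJ] at this
  simpa using this

theorem JL (h : AL0 G L J e) (x : Q) : L (J x) x = e := by
  have := h.LJ (J x)
  rwa [h.JJ] at this

theorem JLJ (h : AL0 G L J e) (x : Q) : J * L x * J = Rt L J (J x) := by
  unfold Rt; rw [h.JJ]

theorem JRJ (h : AL0 G L J e) (x : Q) : J * Rt L J x * J = L (J x) := by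
  unfold Rt
  calc J * (J * L (J x) * J) * J = (J * J) * L (J x) * (J * J) := by group
    _ = _ := by rw [h.JJ1]; group

theorem Rt_inv_e (h : AL0 G L J e) (x : Q) : (Rt L J x)⁻¹ e = J x := by
  rw [Perm.inv_eq_iff_eq, h.Rt_app, h.JL]

theorem L_inv_e (h : AL0 G L J e) (x : Q) : (L x)⁻¹ e = J x := by
  rw [Perm.inv_eq_iff_eq, h.LJ]

/-- an inner mapping which fixes `x` commutes with `R x` -/
theorem comR (h : AL0 G L J e) {g : Perm Q} (hg : g ∈ G) (he : g e = e) {x : Q} (hx : g x = x) :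
    g * Rt L J x = Rt L J x * g := by
  have h1 := h.comJ g hg he
  have h2 : g (J x) = J x := by
    have := congrArg (fun p : Perm Q => p x) h1
    simp only [Perm.mul_apply] at this
    rw [this, hx]
  have h3 := h.comL hg he h2
  unfold Rt
  calc g * (J * L (J x) * J) = (g * J) * L (J x) * J := by group
    _ = J * (g * L (J x)) * J := by rw [h1]; group
    _ = J * L (J x) * (g * J) := by rw [h3]; group
    _ = _ := by rw [h1]; group

theorem fixJ (h : AL0 G L J e) {g : Perm Q} (hg : g ∈ G) (he : g e = e) {x : Q} (hx : g x = x) :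
    g (J x) = J x := by
  have := congrArg (fun p : Perm Q => p x) (h.comJ g hg he)
  simp only [Perm.mul_apply] at this
  rw [this, hx]

/-- flexible law -/
theorem flex (h : AL0 G L J e) (x : Q) : L x * Rt L J x = Rt L J x * L x := by
  have hG : (Rt L J x)⁻¹ * L x ∈ G := G.mul_mem (G.inv_mem (h.memR x)) (h.memL x)
  have h1 : ((Rt L J x)⁻¹ * L x) e = e := by
    rw [Perm.mul_apply, h.Le, Perm.inv_eq_iff_eq, h.Rt_e]
  have h2 : ((Rt L J x)⁻¹ * L x) x = x := by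
    rw [Perm.mul_apply, Perm.inv_eq_iff_eq, h.Rt_app]
  have h3 := h.comL hG h1 h2
  calc L x * Rt L J x = Rt L J x * ((Rt L J x)⁻¹ * L x * Rt L J x) := by group
    _ = Rt L J x * ((Rt L J x)⁻¹ * L x * L x * (L x)⁻¹ * Rt L J x) := by group
    _ = Rt L J x * (L x * ((Rt L J x)⁻¹ * L x) * (L x)⁻¹ * Rt L J x) := by rw [h3]
    _ = _ := by group

theorem Tx_mem (h : AL0 G L J e) (x : Q) : Tx L J x ∈ G :=
  G.mul_mem (h.memL x) (G.inv_mem (h.memR x))

theorem Tx_e (h : AL0 G L J e) (x : Q) : Tx L J x e = e := by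
  unfold Tx
  rw [Perm.mul_apply, h.Rt_inv_e, h.LJ]

theorem Tx_x (h : AL0 G L J e) (x : Q) : Tx L J x x = x := by
  unfold Tx
  rw [Perm.mul_apply]
  have : (Rt L J x)⁻¹ x = e := by rw [Perm.inv_eq_iff_eq, h.Rt_e]
  rw [this, h.Le]

theorem L_eq (_h : AL0 G L J e) (x : Q) : L x = Tx L J x * Rt L J x := by
  unfold Tx; group

theorem Tx_L (h : AL0 G L J e) (x : Q) : Tx L J x * L x = L x * Tx L J x :=
  h.comL (h.Tx_mem x) (h.Tx_e x) (h.Tx_x x)

theorem Tx_R (h : AL0 G L J e) (x : Q) : Tx L J x * Rt L J x = Rt L J x * Tx L J x :=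
  h.comR (h.Tx_mem x) (h.Tx_e x) (h.Tx_x x)

theorem Tx_J (h : AL0 G L J e) (x : Q) : Tx L J x * J = J * Tx L J x :=
  h.comJ _ (h.Tx_mem x) (h.Tx_e x)

theorem Tx_LJ (h : AL0 G L J e) (x : Q) : Tx L J x * L (J x) = L (J x) * Tx L J x :=
  h.comL (h.Tx_mem x) (h.Tx_e x) (h.fixJ (h.Tx_mem x) (h.Tx_e x) (h.Tx_x x))

theorem Tx_RJ (h : AL0 G L J e) (x : Q) : Tx L J x * Rt L J (J x) = Rt L J (J x) * Tx L J x :=
  h.comR (h.Tx_mem x) (h.Tx_e x) (h.fixJ (h.Tx_mem x) (h.Tx_e x) (h.Tx_x x))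

/-- `T_{x⁻¹} = T_x⁻¹` -/
theorem Tx_inv (h : AL0 G L J e) (x : Q) : Tx L J (J x) = (Tx L J x)⁻¹ := by
  have h1 : J * Tx L J x * J = Tx L J x := by
    rw [← h.Tx_J, mul_assoc, h.JJ1, mul_one]
  rw [← h1]
  unfold Tx
  have hLJ : L (J x) = J * Rt L J x * J := (h.JRJ x).symm
  have hRJ : Rt L J (J x) = J * L x * J := (h.JLJ x).symm
  rw [hLJ, hRJ, mul_inv_rev, mul_inv_rev, mul_inv_rev, mul_inv_rev, mul_inv_rev, inv_inv, h.Jinv]
  calc J * Rt L J x * J * (J * ((L x)⁻¹ * J)) = J * Rt L J x * (J * J) * (L x)⁻¹ * J := by group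
    _ = _ := by rw [h.JJ1]; group

theorem RJ_eq (h : AL0 G L J e) (x : Q) : Rt L J (J x) = Tx L J x * L (J x) := by
  have h1 := h.L_eq (J x)
  rw [h.Tx_inv] at h1
  rw [h1]; group

/-- the four translations by `x` and `x⁻¹` commute -/
theorem RRJ (h : AL0 G L J e) (x : Q) :
    Rt L J x * Rt L J (J x) = Rt L J (J x) * Rt L J x := by
  have hw : L x * L (J x) ∈ G := G.mul_mem (h.memL _) (h.memL _)
  have hwe : (L x * L (J x)) e = e := by rw [Perm.mul_apply, h.Le, h.LJ]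
  have h1 := h.comJ _ hw hwe
  have h2 : L x * L (J x) = Rt L J (J x) * Rt L J x := by
    have h3 : L x * L (J x) = J * (L x * L (J x)) * J := by
      rw [← h1, mul_assoc, h.JJ1, mul_one]
    rw [h3, ← h.JLJ x]
    have h4 : Rt L J x = J * L (J x) * J := rfl
    rw [h4]
    calc J * (L x * L (J x)) * J = J * L x * 1 * L (J x) * J := by group
      _ = J * L x * (J * J) * L (J x) * J := by rw [h.JJ1]
      _ = _ := by group
  have h5 : L x * L (J x) = Rt L J x * Rt L J (J x) := by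
    rw [h.RJ_eq, h.L_eq x]
    have h6 := h.Tx_R x
    calc Tx L J x * Rt L J x * L (J x) = Rt L J x * Tx L J x * L (J x) := by rw [h6]
      _ = _ := by group
  rw [← h5, h2]

theorem RLJ (h : AL0 G L J e) (x : Q) : Rt L J x * L (J x) = L (J x) * Rt L J x := by
  have h1 : L (J x) = (Tx L J x)⁻¹ * Rt L J (J x) := by rw [h.RJ_eq]; group
  have h2 := h.RRJ x
  have h3 : Rt L J x * (Tx L J x)⁻¹ = (Tx L J x)⁻¹ * Rt L J x := by
    rw [mul_inv_eq_iff_eq_mul, mul_assoc, ← h.Tx_R x]; group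
  rw [h1]
  calc Rt L J x * ((Tx L J x)⁻¹ * Rt L J (J x)) = (Rt L J x * (Tx L J x)⁻¹) * Rt L J (J x) := by
        group
    _ = (Tx L J x)⁻¹ * (Rt L J x * Rt L J (J x)) := by rw [h3]; group
    _ = _ := by rw [h2]; group

theorem LLJ (h : AL0 G L J e) (x : Q) : L x * L (J x) = L (J x) * L x := by
  rw [h.L_eq x]
  calc Tx L J x * Rt L J x * L (J x) = Tx L J x * (Rt L J x * L (J x)) := by group
    _ = Tx L J x * L (J x) * Rt L J x := by rw [h.RLJ]; group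
    _ = L (J x) * (Tx L J x * Rt L J x) := by rw [h.Tx_LJ]; group

theorem LRJ (h : AL0 G L J e) (x : Q) : L x * Rt L J (J x) = Rt L J (J x) * L x := by
  have := h.RLJ (J x)
  rw [h.JJ] at this
  exact this.symm

/-- the data `M, n₁, n₂` of K1 -/
theorem exists_M (h : AL0 G L J e) (a b : Q) : ∃ M n₁ n₂ : Perm Q,
    n₁ ∈ G ∧ n₁ e = e ∧ n₁ b = b ∧ n₂ ∈ G ∧ n₂ e = e ∧ n₂ a = a ∧
    M = L a * Rt L J b * J * n₁ ∧ M = Rt L J b * L a * J * n₂ ∧
    (J * (L a)⁻¹ * Rt L J (J b)) * M = M * (J * (L a)⁻¹ * Rt L J (J b)) := by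
  set c := (L b)⁻¹ a with hc
  have hbc : L b c = a := by rw [hc, apply_inv']
  set M := L b * L c * J * (L b)⁻¹ with hM
  have hMb : M b = a := by
    have : (L b)⁻¹ b = e := by rw [Perm.inv_eq_iff_eq, h.Le]
    rw [hM, Perm.mul_apply, Perm.mul_apply, Perm.mul_apply, this, h.Je, h.Le, hbc]
  have hMa : M a = b := by
    rw [hM, Perm.mul_apply, Perm.mul_apply, Perm.mul_apply, ← hc, h.LJ, h.Le]
  have hMe : M e = L a b := by
    rw [hM, Perm.mul_apply, Perm.mul_apply, Perm.mul_apply, h.L_inv_e, h.JJ, ← h.Rt_app b c,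
      ← Perm.mul_apply, h.flex, Perm.mul_apply, hbc, h.Rt_app]
  have hMi : ∀ x y, M x = y → M⁻¹ y = x := by
    intro x y hxy
    rw [Perm.inv_eq_iff_eq, hxy]
  have hLe' : (L a)⁻¹ a = e := by rw [Perm.inv_eq_iff_eq, h.Le]
  have hRb' : (Rt L J b)⁻¹ b = e := by rw [Perm.inv_eq_iff_eq, h.Rt_e]
  refine ⟨M, J * (Rt L J b)⁻¹ * (L a)⁻¹ * M, J * (L a)⁻¹ * (Rt L J b)⁻¹ * M, ?_, ?_, ?_, ?_, ?_, ?_,
    ?_, ?_, ?_⟩
  · have h1 : J * (Rt L J b)⁻¹ * (L a)⁻¹ * M =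
        (J * ((Rt L J b)⁻¹ * (L a)⁻¹ * L b * L c) * J) * (L b)⁻¹ := by rw [hM]; group
    rw [h1]
    exact G.mul_mem (h.JG _ (G.mul_mem (G.mul_mem (G.mul_mem (G.inv_mem (h.memR _))
      (G.inv_mem (h.memL _))) (h.memL _)) (h.memL _))) (G.inv_mem (h.memL _))
  · simp only [Perm.mul_apply]
    rw [hMe, inv_apply', hRb', h.Je]
  · simp only [Perm.mul_apply]
    rw [hMb, hLe', h.Rt_inv_e, h.JJ]
  · have h1 : J * (L a)⁻¹ * (Rt L J b)⁻¹ * M =
        (J * ((L a)⁻¹ * (Rt L J b)⁻¹ * L b * L c) * J) * (L b)⁻¹ := by rw [hM]; group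
    rw [h1]
    exact G.mul_mem (h.JG _ (G.mul_mem (G.mul_mem (G.mul_mem (G.inv_mem (h.memL _))
      (G.inv_mem (h.memR _))) (h.memL _)) (h.memL _))) (G.inv_mem (h.memL _))
  · simp only [Perm.mul_apply]
    rw [hMe, ← h.Rt_app b a, inv_apply', hLe', h.Je]
  · simp only [Perm.mul_apply]
    rw [hMa, hRb', h.L_inv_e, h.JJ]
  · calc M = L a * (Rt L J b) * 1 * (Rt L J b)⁻¹ * (L a)⁻¹ * M := by group
      _ = L a * (Rt L J b) * (J * J) * (Rt L J b)⁻¹ * (L a)⁻¹ * M := by rw [h.JJ1]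
      _ = _ := by group
  · calc M = Rt L J b * L a * 1 * (L a)⁻¹ * (Rt L J b)⁻¹ * M := by group
      _ = Rt L J b * L a * (J * J) * (L a)⁻¹ * (Rt L J b)⁻¹ * M := by rw [h.JJ1]
      _ = _ := by group
  · -- `k` swaps `a` and `b`
    set k := J * (L a)⁻¹ * Rt L J (J b) with hk
    have hkb : k b = a := by
      rw [hk, Perm.mul_apply, Perm.mul_apply, h.Rt_app, h.LJ, h.L_inv_e, h.JJ]
    have hka : k a = b := by
      rw [hk, Perm.mul_apply, Perm.mul_apply, h.Rt_app, inv_apply', h.JJ]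
    have hcG : M⁻¹ * k ∈ G := by
      have h1 : M⁻¹ * k = L b * (J * ((L c)⁻¹ * (L b)⁻¹) * J) * ((L a)⁻¹ * Rt L J (J b)) := by
        rw [hM, hk, mul_inv_rev, mul_inv_rev, mul_inv_rev, inv_inv, h.Jinv]; group
      rw [h1]
      exact G.mul_mem (G.mul_mem (h.memL _) (h.JG _ (G.mul_mem (G.inv_mem (h.memL _))
        (G.inv_mem (h.memL _))))) (G.mul_mem (G.inv_mem (h.memL _)) (h.memR _))
    have hcb : (M⁻¹ * k) b = b := by rw [Perm.mul_apply, hkb, hMi b a hMb]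
    have hca : (M⁻¹ * k) a = a := by rw [Perm.mul_apply, hka, hMi a b hMa]
    set d := (L b)⁻¹ * (M⁻¹ * k) * L b with hd
    have hdG : d ∈ G := G.mul_mem (G.mul_mem (G.inv_mem (h.memL _)) hcG) (h.memL _)
    have hde : d e = e := by
      rw [hd, Perm.mul_apply, Perm.mul_apply, h.Le, hcb, Perm.inv_eq_iff_eq, h.Le]
    have hdc : d c = c := by
      rw [hd, Perm.mul_apply, Perm.mul_apply, hbc, hca]
    have h1 := h.comL hdG hde hdc
    have h2 := h.comJ d hdG hde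
    have h3 : M⁻¹ * k = L b * d * (L b)⁻¹ := by rw [hd]; group
    have h4 : (M⁻¹ * k) * M = M * (M⁻¹ * k) := by
      rw [h3, hM]
      calc L b * d * (L b)⁻¹ * (L b * L c * J * (L b)⁻¹) = L b * (d * L c) * J * (L b)⁻¹ := by
            group
        _ = L b * L c * (d * J) * (L b)⁻¹ := by rw [h1]; group
        _ = _ := by rw [h2]; group
    calc k * M = M * ((M⁻¹ * k) * M) := by group
      _ = M * (M * (M⁻¹ * k)) := by rw [h4]
      _ = M * k := by group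

/-- `th(a, b)` is an inner mapping -/
theorem Th_mem (h : AL0 G L J e) (a b : Q) : Th L J a b ∈ G :=
  G.mul_mem (G.mul_mem (G.mul_mem (G.inv_mem (h.memL _)) (G.inv_mem (h.memR _))) (h.memL _))
    (h.memR _)

theorem Th_e (h : AL0 G L J e) (a b : Q) : Th L J a b e = e := by
  unfold Th
  simp only [Perm.mul_apply]
  rw [h.Rt_e, ← h.Rt_app b a, inv_apply', Perm.inv_eq_iff_eq, h.Le]

theorem Th_J (h : AL0 G L J e) (a b : Q) : Th L J a b * J = J * Th L J a b :=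
  h.comJ _ (h.Th_mem a b) (h.Th_e a b)

/-- `th(b⁻¹, a⁻¹) = th(a, b)⁻¹` -/
theorem Th_inv (h : AL0 G L J e) (a b : Q) : Th L J (J b) (J a) = (Th L J a b)⁻¹ := by
  have h1 : Th L J a b = J * Th L J a b * J := by
    rw [← h.Th_J, mul_assoc, h.JJ1, mul_one]
  rw [h1]
  unfold Th
  rw [← h.JRJ b, ← h.JLJ a]
  simp only [mul_inv_rev, inv_inv, h.Jinv]
  calc J * ((Rt L J b)⁻¹ * J) * (J * ((L a)⁻¹ * J)) * (J * Rt L J b * J) * (J * L a * J) =
        J * (Rt L J b)⁻¹ * (J * J) * (L a)⁻¹ * (J * J) * Rt L J b * (J * J) * L a * J := by group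
    _ = _ := by rw [h.JJ1]; group

/-- `th(a, b) = n₂ n₁⁻¹`, K2: `T_b th(b, a⁻¹) = th(a, b) T_b` -/
theorem K2 (h : AL0 G L J e) (a b : Q) : Tx L J b * Th L J b (J a) = Th L J a b * Tx L J b := by
  obtain ⟨M, n₁, n₂, h1G, h1e, h1b, h2G, h2e, h2a, hM1, hM2, hk⟩ := h.exists_M a b
  have j1 := h.comJ _ h1G h1e
  have j2 := h.comJ _ h2G h2e
  have hth : Th L J a b = n₂ * n₁⁻¹ := by
    have h3 : L a * Rt L J b * J * n₁ = Rt L J b * L a * J * n₂ := by rw [← hM1, hM2]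
    have h4 : L a * Rt L J b * n₁ = Rt L J b * L a * n₂ := by
      have h5 := congrArg (fun g => g * J) h3
      calc L a * Rt L J b * n₁ = L a * Rt L J b * 1 * n₁ := by group
        _ = L a * Rt L J b * J * (J * n₁) := by rw [← h.JJ1]; group
        _ = L a * Rt L J b * J * n₁ * J := by rw [← j1]; group
        _ = Rt L J b * L a * J * n₂ * J := by rw [h3]
        _ = Rt L J b * L a * J * (J * n₂) := by rw [← j2]; group
        _ = Rt L J b * L a * (J * J) * n₂ := by group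
        _ = _ := by rw [h.JJ1]; group
    unfold Th
    calc (L a)⁻¹ * (Rt L J b)⁻¹ * L a * Rt L J b =
          (L a)⁻¹ * (Rt L J b)⁻¹ * (L a * Rt L J b * n₁) * n₁⁻¹ := by group
      _ = _ := by rw [h4]; group
  have c1 : n₂ * L a = L a * n₂ := h.comL h2G h2e h2a
  have c2 : n₁ * L (J b) = L (J b) * n₁ := h.comL h1G h1e (h.fixJ h1G h1e h1b)
  have c3 : n₁ * L b = L b * n₁ := h.comL h1G h1e h1b
  have c4 : n₁ * Rt L J b = Rt L J b * n₁ := h.comR h1G h1e h1b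
  -- `M k = R_b n₂ R_{b⁻¹}`
  have e1 : M * (J * (L a)⁻¹ * Rt L J (J b)) = Rt L J b * n₂ * Rt L J (J b) := by
    rw [hM2]
    calc Rt L J b * L a * J * n₂ * (J * (L a)⁻¹ * Rt L J (J b)) =
          Rt L J b * L a * J * (n₂ * J) * (L a)⁻¹ * Rt L J (J b) := by group
      _ = Rt L J b * L a * (J * J) * n₂ * (L a)⁻¹ * Rt L J (J b) := by rw [j2]; group
      _ = Rt L J b * (L a * n₂) * (L a)⁻¹ * Rt L J (J b) := by rw [h.JJ1]; group
      _ = _ := by rw [← c1]; group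
  -- `k M = R_{a⁻¹}⁻¹ L_b R_{a⁻¹} n₁ L_{b⁻¹}`
  have e2 : (J * (L a)⁻¹ * Rt L J (J b)) * M =
      (Rt L J (J a))⁻¹ * L b * Rt L J (J a) * n₁ * L (J b) := by
    have i1 : (Rt L J (J a))⁻¹ = J * (L a)⁻¹ * J := by
      rw [← h.JLJ a, mul_inv_rev, mul_inv_rev, h.Jinv]; group
    have i2 : L b = J * Rt L J (J b) * J := by
      have := h.JRJ (J b)
      rw [h.JJ] at this
      exact this.symm
    have i3 : J * Rt L J b * J = L (J b) := h.JRJ b
    rw [hM1]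
    calc J * (L a)⁻¹ * Rt L J (J b) * (L a * Rt L J b * J * n₁) =
          J * (L a)⁻¹ * 1 * Rt L J (J b) * 1 * L a * 1 * Rt L J b * J * n₁ := by group
      _ = J * (L a)⁻¹ * (J * J) * Rt L J (J b) * (J * J) * L a * (J * J) * Rt L J b * J * n₁ := by
          rw [h.JJ1]
      _ = (J * (L a)⁻¹ * J) * (J * Rt L J (J b) * J) * (J * L a * J) * (J * Rt L J b * J) * n₁ := by
          group
      _ = (Rt L J (J a))⁻¹ * L b * Rt L J (J a) * (L (J b) * n₁) := by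
          rw [← i1, ← i2, h.JLJ a, i3]; group
      _ = _ := by rw [← c2]; group
  have e3 : Rt L J b * n₂ * Rt L J (J b) = (Rt L J (J a))⁻¹ * L b * Rt L J (J a) * n₁ * L (J b) := by
    rw [← e1, ← hk, e2]
  -- `R_{b⁻¹} = T_b L_{b⁻¹}`
  rw [h.RJ_eq b] at e3
  have e4 : Rt L J b * n₂ * Tx L J b = (Rt L J (J a))⁻¹ * L b * Rt L J (J a) * n₁ := by
    have := congrArg (fun g => g * (L (J b))⁻¹) e3
    simpa [mul_assoc] using this
  have c5 : n₁⁻¹ * Tx L J b = Tx L J b * n₁⁻¹ := by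
    unfold Tx
    rw [inv_mul_eq_iff_eq_mul]
    have c6 : n₁ * (Rt L J b)⁻¹ = (Rt L J b)⁻¹ * n₁ := by
      rw [mul_inv_eq_iff_eq_mul, mul_assoc, c4]; group
    calc L b * (Rt L J b)⁻¹ = L b * ((Rt L J b)⁻¹ * n₁) * n₁⁻¹ := by group
      _ = (L b * n₁) * (Rt L J b)⁻¹ * n₁⁻¹ := by rw [← c6]; group
      _ = _ := by rw [← c3]; group
  have e5 : n₂ * Tx L J b * n₁⁻¹ = (Rt L J b)⁻¹ * (Rt L J (J a))⁻¹ * L b * Rt L J (J a) := by
    calc n₂ * Tx L J b * n₁⁻¹ = (Rt L J b)⁻¹ * (Rt L J b * n₂ * Tx L J b) * n₁⁻¹ := by group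
      _ = _ := by rw [e4]; group
  rw [hth]
  calc Tx L J b * Th L J b (J a) =
        (Tx L J b * (L b)⁻¹) * ((Rt L J (J a))⁻¹ * L b * Rt L J (J a)) := by unfold Th; group
    _ = (Rt L J b)⁻¹ * ((Rt L J (J a))⁻¹ * L b * Rt L J (J a)) := by
        have : Tx L J b * (L b)⁻¹ = (Rt L J b)⁻¹ := by
          rw [mul_inv_eq_iff_eq_mul]
          unfold Tx
          have hf := h.flex b
          rw [mul_inv_eq_iff_eq_mul]
          calc L b = (Rt L J b)⁻¹ * (Rt L J b * L b) := by group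
            _ = _ := by rw [← hf]; group
        rw [this]
    _ = n₂ * Tx L J b * n₁⁻¹ := by rw [e5]; group
    _ = _ := by rw [mul_assoc, ← c5]; group

/-- K1: `th(a, b⁻¹)⁻¹ = T_b⁻¹ th(a, b) T_b` -/
theorem K1 (h : AL0 G L J e) (a b : Q) :
    Tx L J b * (Th L J a (J b))⁻¹ = Th L J a b * Tx L J b := by
  have h1 := h.Th_inv a (J b)
  rw [h.JJ] at h1
  rw [← h1, h.K2]

end AL0

end ALoop
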