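import Pool.Agent.H71.O2.K1

set_option autoImplicit false

/-!
End game for noncommutative simple automorphic loops: if all `th(a, b)` fix `a` and `b` then the loop is
commutative or associative (helper12's proof).
-/

namespace ALoop

open Equiv

variable {Q : Type*} {G : Subgroup (Perm Q)} {L : Q → Perm Q} {J : Perm Q} {e : Q}

/-- `al(x, y) = L_{xy}⁻¹ L_x L_y` -/
def Al (L : Q → Perm Q) (x y : Q) : Perm Q := (L (L x y))⁻¹ * L x * L y

/-- the hypothesis K7 -/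
structure K7 (G : Subgroup (Perm Q)) (L : Q → Perm Q) (J : Perm Q) (e : Q) : Prop where
  al0 : AL0 G L J e
  fixb : ∀ a b, Th L J a b b = b

namespace K7

theorem gen (k : K7 G L J e) {c : Perm Q} (he : c e = e) (hc : ∀ a, c * L a = L a * c) : c = 1 := by
  ext a
  have h1 := congrArg (fun p : Perm Q => p e) (hc a)
  simp only [Perm.mul_apply, k.al0.Le, he] at h1
  exact h1

theorem fixa (k : K7 G L J e) (a b : Q) : Th L J a b a = a := by
  have h := k.al0
  have h1 := h.Th_inv (J b) (J a)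
  rw [h.JJ, h.JJ] at h1
  have h2 := h.fixJ (h.Th_mem (J b) (J a)) (h.Th_e _ _) (k.fixb (J b) (J a))
  rw [h.JJ] at h2
  rw [h1, Perm.inv_eq_iff_eq]
  exact h2.symm

theorem th_L1 (k : K7 G L J e) (a b : Q) : Th L J a b * L a = L a * Th L J a b :=
  k.al0.comL (k.al0.Th_mem a b) (k.al0.Th_e a b) (k.fixa a b)

theorem th_L2 (k : K7 G L J e) (a b : Q) : Th L J a b * L b = L b * Th L J a b :=
  k.al0.comL (k.al0.Th_mem a b) (k.al0.Th_e a b) (k.fixb a b)

theorem th_R1 (k : K7 G L J e) (a b : Q) : Th L J a b * Rt L J a = Rt L J a * Th L J a b :=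
  k.al0.comR (k.al0.Th_mem a b) (k.al0.Th_e a b) (k.fixa a b)

theorem th_R2 (k : K7 G L J e) (a b : Q) : Th L J a b * Rt L J b = Rt L J b * Th L J a b :=
  k.al0.comR (k.al0.Th_mem a b) (k.al0.Th_e a b) (k.fixb a b)

theorem th_T2 (k : K7 G L J e) (a b : Q) : Th L J a b * Tx L J b = Tx L J b * Th L J a b := by
  have h1 := k.th_L2 a b
  have h2 := k.th_R2 a b
  unfold Tx
  have h3 : Th L J a b * (Rt L J b)⁻¹ = (Rt L J b)⁻¹ * Th L J a b := by
    rw [mul_inv_eq_iff_eq_mul, mul_assoc, h2]; group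
  calc Th L J a b * (L b * (Rt L J b)⁻¹) = (Th L J a b * L b) * (Rt L J b)⁻¹ := by group
    _ = L b * (Th L J a b * (Rt L J b)⁻¹) := by rw [h1]; group
    _ = _ := by rw [h3]; group

/-- `th(a, b⁻¹) = th(a, b)⁻¹` -/
theorem th_inv2 (k : K7 G L J e) (a b : Q) : Th L J a (J b) = (Th L J a b)⁻¹ := by
  have h1 := k.al0.K1 a b
  rw [k.th_T2] at h1
  have h2 := mul_left_cancel h1
  rw [← h2, inv_inv]

/-- `th(b, a⁻¹) = th(a, b)` -/
theorem th_swap' (k : K7 G L J e) (a b : Q) : Th L J b (J a) = Th L J a b := by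
  have h1 := k.al0.K2 a b
  rw [k.th_T2] at h1
  exact mul_left_cancel h1

/-- `th(b, a) = th(a, b)⁻¹` -/
theorem th_swap (k : K7 G L J e) (a b : Q) : Th L J b a = (Th L J a b)⁻¹ := by
  rw [← k.th_swap' a b, k.th_inv2, inv_inv]

theorem L_th (k : K7 G L J e) (a b : Q) :
    (L a)⁻¹ * Rt L J b * L a = Rt L J b * (Th L J a b)⁻¹ := by
  have h1 : (Th L J a b) = (L a)⁻¹ * (Rt L J b)⁻¹ * L a * Rt L J b := rfl
  rw [h1]; group

theorem RRJ_one (k : K7 G L J e) (b : Q) : Rt L J b * Rt L J (J b) = 1 := by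
  have h := k.al0
  apply k.gen
  · rw [Perm.mul_apply, h.Rt_e, h.Rt_app, h.JL]
  · intro a
    have h1 := k.L_th a b
    have h2 := k.L_th a (J b)
    rw [k.th_inv2, inv_inv] at h2
    have h3 : Th L J a b * Rt L J (J b) = Rt L J (J b) * Th L J a b :=
      h.comR (h.Th_mem a b) (h.Th_e a b) (h.fixJ (h.Th_mem a b) (h.Th_e a b) (k.fixb a b))
    have h4 : (L a)⁻¹ * (Rt L J b * Rt L J (J b)) * L a = Rt L J b * Rt L J (J b) := by
      calc (L a)⁻¹ * (Rt L J b * Rt L J (J b)) * L a =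
            ((L a)⁻¹ * Rt L J b * L a) * ((L a)⁻¹ * Rt L J (J b) * L a) := by group
        _ = Rt L J b * (Th L J a b)⁻¹ * (Rt L J (J b) * Th L J a b) := by rw [h1, h2]
        _ = Rt L J b * (Th L J a b)⁻¹ * (Th L J a b * Rt L J (J b)) := by rw [h3]
        _ = _ := by group
    calc Rt L J b * Rt L J (J b) * L a = L a * ((L a)⁻¹ * (Rt L J b * Rt L J (J b)) * L a) := by
          group
      _ = _ := by rw [h4]

/-- inverse property -/
theorem R_inv (k : K7 G L J e) (b : Q) : Rt L J (J b) = (Rt L J b)⁻¹ :=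
  eq_inv_of_mul_eq_one_right (k.RRJ_one b)

theorem L_inv (k : K7 G L J e) (b : Q) : L (J b) = (L b)⁻¹ := by
  have h := k.al0
  have h1 := k.R_inv b
  have h2 := h.JRJ (J b)
  rw [h.JJ] at h2
  have h3 := h.JRJ b
  rw [h1] at h2
  rw [← h2, ← h3]
  rw [mul_inv_rev, mul_inv_rev, h.Jinv, inv_inv]; group

theorem al_mem (k : K7 G L J e) (x y : Q) : Al L x y ∈ G :=
  G.mul_mem (G.mul_mem (G.inv_mem (k.al0.memL _)) (k.al0.memL _)) (k.al0.memL _)

theorem al_e (k : K7 G L J e) (x y : Q) : Al L x y e = e := by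
  unfold Al
  rw [Perm.mul_apply, Perm.mul_apply, k.al0.Le, Perm.inv_eq_iff_eq, k.al0.Le]

theorem al_x (k : K7 G L J e) (x y : Q) : Al L x y x = x := by
  have h := k.al0
  unfold Al
  rw [Perm.mul_apply, Perm.mul_apply, Perm.inv_eq_iff_eq]
  have h1 := congrArg (fun p : Perm Q => p y) (h.flex x)
  simp only [Perm.mul_apply, h.Rt_app] at h1
  exact h1

theorem al_y (k : K7 G L J e) (x y : Q) : Al L x y y = y := by
  have h := k.al0
  unfold Al
  rw [Perm.mul_apply, Perm.mul_apply, Perm.inv_eq_iff_eq]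
  -- `x (y y) = (x y) y`
  have h1 := k.fixb x y
  unfold Th at h1
  simp only [Perm.mul_apply] at h1
  rw [Perm.inv_eq_iff_eq, Perm.inv_eq_iff_eq, h.Rt_app, h.Rt_app] at h1
  exact h1

theorem al_L1 (k : K7 G L J e) (x y : Q) : Al L x y * L x = L x * Al L x y :=
  k.al0.comL (k.al_mem x y) (k.al_e x y) (k.al_x x y)

theorem al_L2 (k : K7 G L J e) (x y : Q) : Al L x y * L y = L y * Al L x y :=
  k.al0.comL (k.al_mem x y) (k.al_e x y) (k.al_y x y)

theorem al_R1 (k : K7 G L J e) (x y : Q) : Al L x y * Rt L J x = Rt L J x * Al L x y :=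
  k.al0.comR (k.al_mem x y) (k.al_e x y) (k.al_x x y)

theorem al_R2 (k : K7 G L J e) (x y : Q) : Al L x y * Rt L J y = Rt L J y * Al L x y :=
  k.al0.comR (k.al_mem x y) (k.al_e x y) (k.al_y x y)

theorem L_mul (_k : K7 G L J e) (x y : Q) : L x * L y = L (L x y) * Al L x y := by
  unfold Al; group

theorem fix_mul (k : K7 G L J e) {c : Perm Q} (hc : c ∈ G) (he : c e = e) (x y : Q) :
    c (L x y) = L (c x) (c y) := by
  have h1 := k.al0.equi c hc he x
  rw [← h1, Perm.mul_apply, Perm.mul_apply, inv_apply']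

theorem al_xy (k : K7 G L J e) (x y : Q) : Al L x y (L x y) = L x y := by
  rw [k.fix_mul (k.al_mem x y) (k.al_e x y), k.al_x, k.al_y]

theorem al_Lxy (k : K7 G L J e) (x y : Q) : Al L x y * L (L x y) = L (L x y) * Al L x y :=
  k.al0.comL (k.al_mem x y) (k.al_e x y) (k.al_xy x y)

/-- `al(b⁻¹, a⁻¹) = al(a, b)⁻¹` -/
theorem al_inv (k : K7 G L J e) (a b : Q) : Al L (J b) (J a) = (Al L a b)⁻¹ := by
  have h := k.al0
  have h1 := k.L_mul (J b) (J a)
  rw [← h.aaip a b, k.L_inv, k.L_inv, k.L_inv] at h1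
  have h2 : (L b)⁻¹ * (L a)⁻¹ = (L a * L b)⁻¹ := by group
  rw [h2, k.L_mul, ← k.al_Lxy] at h1
  rw [mul_inv_rev] at h1
  exact (mul_left_cancel h1).symm

/-- `R_z R_y = R_{yz} al(y, z)⁻¹` -/
theorem R_mul (k : K7 G L J e) (y z : Q) :
    Rt L J z * Rt L J y = Rt L J (L y z) * (Al L y z)⁻¹ := by
  have h := k.al0
  have h1 := k.L_mul (J z) (J y)
  rw [← h.aaip y z, k.al_inv] at h1
  have h2 : J * (L (J z) * L (J y)) * J = Rt L J z * Rt L J y := by
    unfold Rt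
    calc J * (L (J z) * L (J y)) * J = J * L (J z) * 1 * L (J y) * J := by group
      _ = J * L (J z) * (J * J) * L (J y) * J := by rw [h.JJ1]
      _ = _ := by group
  have h3 : J * (Al L y z)⁻¹ = (Al L y z)⁻¹ * J := by
    have := h.comJ _ (k.al_mem y z) (k.al_e y z)
    rw [eq_comm, inv_mul_eq_iff_eq_mul, ← mul_assoc, this]; group
  rw [← h2, h1]
  unfold Rt
  calc J * (L (J (L y z)) * (Al L y z)⁻¹) * J = J * L (J (L y z)) * ((Al L y z)⁻¹ * J) := by group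
    _ = J * L (J (L y z)) * (J * (Al L y z)⁻¹) := by rw [h3]
    _ = _ := by group

/-- (3) -/
theorem three (k : K7 G L J e) (x y z : Q) :
    Al L x y (L (L x y) z) = L x (L y z) ∧ Th L J x z (L (L x y) z) = L x (L y z) ∧
      Al L y z (L (L x y) z) = L x (L y z) := by
  have h := k.al0
  refine ⟨?_, ?_, ?_⟩
  · rw [← Perm.mul_apply, k.al_Lxy, ← k.L_mul]; rfl
  · -- `L_x R_z y = R_z L_x th(x,z) y`
    have h1 : L x * Rt L J z = Rt L J z * L x * Th L J x z := by unfold Th; group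
    have h2 := congrArg (fun p : Perm Q => p y) h1
    simp only [Perm.mul_apply, h.Rt_app] at h2
    rw [h2, k.fix_mul (h.Th_mem x z) (h.Th_e x z), k.fix_mul (h.Th_mem x z) (h.Th_e x z), k.fixa,
      k.fixb]
  · have h1 := congrArg (fun p : Perm Q => p x) (k.R_mul y z)
    simp only [Perm.mul_apply, h.Rt_app] at h1
    rw [h1, k.fix_mul (k.al_mem y z) (k.al_e y z), k.al_xy, apply_inv']

/-- the other convention -/
theorem T_comm_al (k : K7 G L J e) (x y : Q) : Al L x y * Tx L J x = Tx L J x * Al L x y := by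
  have h1 := k.al_L1 x y
  have h2 := k.al_R1 x y
  unfold Tx
  have h3 : Al L x y * (Rt L J x)⁻¹ = (Rt L J x)⁻¹ * Al L x y := by
    rw [mul_inv_eq_iff_eq_mul, mul_assoc, h2]; group
  calc Al L x y * (L x * (Rt L J x)⁻¹) = (Al L x y * L x) * (Rt L J x)⁻¹ := by group
    _ = L x * (Al L x y * (Rt L J x)⁻¹) := by rw [h1]; group
    _ = _ := by rw [h3]; group

/-- equivariance of `al` -/
theorem al_conj (k : K7 G L J e) {c : Perm Q} (hc : c ∈ G) (he : c e = e) (x y : Q) :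
    Al L (c x) (c y) = c * Al L x y * c⁻¹ := by
  have h := k.al0
  unfold Al
  rw [← k.fix_mul hc he, ← h.equi c hc he, ← h.equi c hc he, ← h.equi c hc he]; group

theorem Rt_conj (k : K7 G L J e) {c : Perm Q} (hc : c ∈ G) (he : c e = e) (x : Q) :
    Rt L J (c x) = c * Rt L J x * c⁻¹ := by
  have h := k.al0
  unfold Rt
  have h1 := h.comJ c hc he
  have h2 : J (c x) = c (J x) := by
    have := congrArg (fun p : Perm Q => p x) h1
    simp only [Perm.mul_apply] at this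
    exact this.symm
  rw [h2, ← h.equi c hc he]
  have h3 : c⁻¹ * J = J * c⁻¹ := by
    rw [inv_mul_eq_iff_eq_mul, ← mul_assoc, h1]; group
  calc J * (c * L (J x) * c⁻¹) * J = (J * c) * L (J x) * (c⁻¹ * J) := by group
    _ = (c * J) * L (J x) * (J * c⁻¹) := by rw [← h1, h3]
    _ = _ := by group

theorem th_conj (k : K7 G L J e) {c : Perm Q} (hc : c ∈ G) (he : c e = e) (x y : Q) :
    Th L J (c x) (c y) = c * Th L J x y * c⁻¹ := by
  have h := k.al0
  unfold Th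
  rw [k.Rt_conj hc he, ← h.equi c hc he]; group

theorem Tx_conj (k : K7 G L J e) {c : Perm Q} (hc : c ∈ G) (he : c e = e) (x : Q) :
    Tx L J (c x) = c * Tx L J x * c⁻¹ := by
  have h := k.al0
  unfold Tx
  rw [k.Rt_conj hc he, ← h.equi c hc he]; group

theorem Tinv_mem (k : K7 G L J e) (x : Q) : (Tx L J x)⁻¹ ∈ G := G.inv_mem (k.al0.Tx_mem x)

theorem Tinv_e (k : K7 G L J e) (x : Q) : (Tx L J x)⁻¹ e = e := by
  rw [Perm.inv_eq_iff_eq, k.al0.Tx_e]

/-- `x y = T_x (y x)` -/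
theorem xy_eq (k : K7 G L J e) (x y : Q) : L x y = Tx L J x (L y x) := by
  have h := k.al0
  have h1 := congrArg (fun p : Perm Q => p y) (h.L_eq x)
  simp only [Perm.mul_apply, h.Rt_app] at h1
  exact h1

/-- (4): `al(x, z) = al(z, x)⁻¹` -/
theorem four (k : K7 G L J e) (x z : Q) : Al L x z = (Al L z x)⁻¹ := by
  have h := k.al0
  ext g0
  -- `g0 = (x y) z`
  obtain ⟨y, hy⟩ : ∃ y, L (L x y) z = g0 := by
    refine ⟨(L x)⁻¹ ((Rt L J z)⁻¹ g0), ?_⟩
    rw [apply_inv', ← h.Rt_app z, apply_inv']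
  -- (a): the triple `(y, T_y⁻¹ x, z)`: `y * (T_y⁻¹ x) = x y`
  have a1 : L y ((Tx L J y)⁻¹ x) = L x y := by
    rw [k.xy_eq y, k.fix_mul (h.Tx_mem y) (h.Tx_e y), apply_inv', h.Tx_x]
  have a2 := (k.three y ((Tx L J y)⁻¹ x) z)
  rw [a1, hy] at a2
  have a3 : Al L y ((Tx L J y)⁻¹ x) = Al L y x := by
    have h1 := k.al_conj (k.Tinv_mem y) (k.Tinv_e y) y x
    have h2 : (Tx L J y)⁻¹ y = y := by rw [Perm.inv_eq_iff_eq, h.Tx_x]
    rw [h2] at h1
    rw [h1, inv_inv, mul_assoc, k.T_comm_al, ← mul_assoc, inv_mul_cancel, one_mul]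
  rw [a3] at a2
  have a4 : Al L y x g0 = Th L J y z g0 := by rw [a2.1, a2.2.1]
  -- (b): the triple `(T_x y, x, z)`
  have b1 : L (Tx L J x y) x = L x y := by
    rw [k.xy_eq x y, k.fix_mul (h.Tx_mem x) (h.Tx_e x), h.Tx_x]
  have b2 := (k.three (Tx L J x y) x z)
  rw [b1, hy] at b2
  have b3 : Al L (Tx L J x y) x = Al L y x := by
    have h1 := k.al_conj (h.Tx_mem x) (h.Tx_e x) y x
    rw [h.Tx_x] at h1
    rw [h1]
    -- `al(y,x)` commutes with `T_x`
    have h2 : Al L y x * Tx L J x = Tx L J x * Al L y x := by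
      have h1 := k.al_L2 y x
      have h2 := k.al_R2 y x
      unfold Tx
      have h3 : Al L y x * (Rt L J x)⁻¹ = (Rt L J x)⁻¹ * Al L y x := by
        rw [mul_inv_eq_iff_eq_mul, mul_assoc, h2]; group
      calc Al L y x * (L x * (Rt L J x)⁻¹) = (Al L y x * L x) * (Rt L J x)⁻¹ := by group
        _ = L x * (Al L y x * (Rt L J x)⁻¹) := by rw [h1]; group
        _ = _ := by rw [h3]; group
    rw [← h2]; group
  rw [b3] at b2
  have b4 : Al L y x g0 = Al L x z g0 := by rw [b2.1, b2.2.2]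
  -- (c): `g0 = z * (T_z⁻¹ x * T_z⁻¹ y)`
  have c1 : L z (L ((Tx L J z)⁻¹ x) ((Tx L J z)⁻¹ y)) = g0 := by
    rw [← k.fix_mul (k.Tinv_mem z) (k.Tinv_e z), k.xy_eq z, k.fix_mul (h.Tx_mem z) (h.Tx_e z),
      apply_inv', h.Tx_x, hy]
  have c2 := (k.three z ((Tx L J z)⁻¹ x) ((Tx L J z)⁻¹ y))
  rw [c1] at c2
  have hTz : (Tx L J z)⁻¹ z = z := by rw [Perm.inv_eq_iff_eq, h.Tx_x]
  have c3 : Al L z ((Tx L J z)⁻¹ x) = Al L z x := by
    have h1 := k.al_conj (k.Tinv_mem z) (k.Tinv_e z) z x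
    rw [hTz] at h1
    rw [h1, inv_inv, mul_assoc, k.T_comm_al, ← mul_assoc, inv_mul_cancel, one_mul]
  have c4 : Th L J z ((Tx L J z)⁻¹ y) = Th L J z y := by
    have h1 := k.th_conj (k.Tinv_mem z) (k.Tinv_e z) z y
    rw [hTz] at h1
    have h2 : Th L J z y * Tx L J z = Tx L J z * Th L J z y := by
      have h1 := k.th_L1 z y
      have h2 := k.th_R1 z y
      unfold Tx
      have h3 : Th L J z y * (Rt L J z)⁻¹ = (Rt L J z)⁻¹ * Th L J z y := by
        rw [mul_inv_eq_iff_eq_mul, mul_assoc, h2]; group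
      calc Th L J z y * (L z * (Rt L J z)⁻¹) = (Th L J z y * L z) * (Rt L J z)⁻¹ := by group
        _ = L z * (Th L J z y * (Rt L J z)⁻¹) := by rw [h1]; group
        _ = _ := by rw [h3]; group
    rw [h1, inv_inv, mul_assoc, h2, ← mul_assoc, inv_mul_cancel, one_mul]
  rw [c3, c4] at c2
  set g' := L (L z ((Tx L J z)⁻¹ x)) ((Tx L J z)⁻¹ y)
  -- `al(z,x) g' = g0`, `th(z,y) g' = g0`
  have c5 : g' = (Al L z x)⁻¹ g0 := by rw [← c2.1, inv_apply']
  have c6 : g' = Th L J y z g0 := by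
    rw [k.th_swap z y, ← c2.2.1, inv_apply']
  rw [← b4, a4, ← c6, c5]

theorem comm_inv {a b : Perm Q} (h : a * b = b * a) : a * b⁻¹ = b⁻¹ * a := by
  rw [mul_inv_eq_iff_eq_mul, mul_assoc, h]; group

theorem R_th (k : K7 G L J e) (x q : Q) :
    Rt L J q * L x * (Rt L J q)⁻¹ = L x * (Th L J x q)⁻¹ := by
  have h1 : L x * Rt L J q = Rt L J q * L x * Th L J x q := by unfold Th; group
  have h2 := k.th_R2 x q
  calc Rt L J q * L x * (Rt L J q)⁻¹ =
        (Rt L J q * L x * Th L J x q) * (Th L J x q)⁻¹ * (Rt L J q)⁻¹ := by group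
    _ = L x * (Rt L J q * (Th L J x q)⁻¹) * (Rt L J q)⁻¹ := by rw [← h1]; group
    _ = L x * ((Th L J x q)⁻¹ * Rt L J q) * (Rt L J q)⁻¹ := by rw [comm_inv h2.symm]
    _ = _ := by group

theorem al_T2 (k : K7 G L J e) (x y : Q) : Al L x y * Tx L J y = Tx L J y * Al L x y := by
  have h1 := k.al_L2 x y
  have h2 := comm_inv (k.al_R2 x y)
  unfold Tx
  calc Al L x y * (L y * (Rt L J y)⁻¹) = (Al L x y * L y) * (Rt L J y)⁻¹ := by group
    _ = L y * (Al L x y * (Rt L J y)⁻¹) := by rw [h1]; group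
    _ = _ := by rw [h2]; group

/-- (5) -/
theorem five (k : K7 G L J e) (x q : Q) : Th L J x q = (Al L q x)⁻¹ * Al L x q := by
  have h := k.al0
  have h1 : L (L x q) = (Tx L J q)⁻¹ * L (L q x) * Tx L J q := by
    have h2 : L x q = (Tx L J q)⁻¹ (L q x) := by
      rw [k.xy_eq q x, inv_apply']
    have h3 := h.equi _ (k.Tinv_mem q) (k.Tinv_e q) (L q x)
    rw [inv_inv] at h3
    rw [h2, ← h3]
  have h4 := k.L_mul x q
  rw [h1] at h4
  have h5 : L (L q x) = L q * L x * (Al L q x)⁻¹ := by rw [k.L_mul q x]; group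
  rw [h5] at h4
  -- `al(q,x)` commutes with `T_q`
  have h6 := k.T_comm_al q x
  have h7 : (Al L q x)⁻¹ * Tx L J q = Tx L J q * (Al L q x)⁻¹ := (comm_inv h6.symm).symm
  -- `T_q⁻¹ L_x T_q = L_q⁻¹ L_x L_q th(x,q)⁻¹`
  have h8 : (Tx L J q)⁻¹ * L x * Tx L J q = (L q)⁻¹ * L x * L q * (Th L J x q)⁻¹ := by
    have e1 : Tx L J q = (Rt L J q)⁻¹ * L q := by
      unfold Tx
      rw [comm_inv (h.flex q)]
    have e2 : (Tx L J q)⁻¹ = (L q)⁻¹ * Rt L J q := by rw [e1]; group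
    have e3 : Tx L J q = (Rt L J q)⁻¹ * L q := e1
    have e4 := k.R_th x q
    have e5 := k.th_L2 x q
    calc (Tx L J q)⁻¹ * L x * Tx L J q =
          (L q)⁻¹ * (Rt L J q * L x * (Rt L J q)⁻¹) * L q := by rw [e2]; nth_rw 1 [e3]; group
      _ = (L q)⁻¹ * L x * ((Th L J x q)⁻¹ * L q) := by rw [e4]; group
      _ = (L q)⁻¹ * L x * (L q * (Th L J x q)⁻¹) := by rw [comm_inv e5.symm]
      _ = _ := by group
  have h9 : (Tx L J q)⁻¹ * L q = L q * (Tx L J q)⁻¹ := (comm_inv (h.Tx_L q).symm).symm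
  have h10 : L x * L q = L x * L q * (Th L J x q)⁻¹ * (Al L q x)⁻¹ * Al L x q := by
    calc L x * L q = (Tx L J q)⁻¹ * (L q * L x * (Al L q x)⁻¹) * Tx L J q * Al L x q := h4
      _ = ((Tx L J q)⁻¹ * L q) * L x * ((Al L q x)⁻¹ * Tx L J q) * Al L x q := by group
      _ = L q * ((Tx L J q)⁻¹ * L x * Tx L J q) * (Al L q x)⁻¹ * Al L x q := by
          rw [h9, h7]; group
      _ = _ := by rw [h8]; group
  have h11 : (1 : Perm Q) = (Th L J x q)⁻¹ * (Al L q x)⁻¹ * Al L x q := by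
    have h12 : L x * L q * 1 = L x * L q * ((Th L J x q)⁻¹ * (Al L q x)⁻¹ * Al L x q) := by
      rw [mul_one]
      calc L x * L q = L x * L q * (Th L J x q)⁻¹ * (Al L q x)⁻¹ * Al L x q := h10
        _ = _ := by group
    exact mul_left_cancel h12
  calc Th L J x q = Th L J x q * 1 := by group
    _ = _ := by rw [h11]; group

/-- (6): `T` is a homomorphism -/
theorem T_mul (k : K7 G L J e) (q x : Q) : Tx L J (L q x) = Tx L J q * Tx L J x := by
  have h := k.al0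
  have h1 : Th L J x q = (Al L q x)⁻¹ * (Al L q x)⁻¹ := by rw [k.five, k.four x q]
  have h2 : L (L q x) = L q * L x * (Al L q x)⁻¹ := by rw [k.L_mul q x]; group
  have h3 : Rt L J (L q x) = Rt L J x * Rt L J q * Al L q x := by rw [k.R_mul q x]; group
  have h4 : L x * (Rt L J q)⁻¹ = (Rt L J q)⁻¹ * L x * (Th L J x q)⁻¹ := by
    have e4 := k.R_th x q
    calc L x * (Rt L J q)⁻¹ = (Rt L J q)⁻¹ * (Rt L J q * L x * (Rt L J q)⁻¹) := by group
      _ = _ := by rw [e4]; group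
  have h5 : (Th L J x q)⁻¹ = Al L q x * Al L q x := by rw [h1, mul_inv_rev, inv_inv]
  have c1 : (Al L q x) * (Rt L J x)⁻¹ = (Rt L J x)⁻¹ * Al L q x := comm_inv (k.al_R2 q x)
  have c2 : (Al L q x) * (Rt L J q)⁻¹ = (Rt L J q)⁻¹ * Al L q x := comm_inv (k.al_R1 q x)
  unfold Tx
  rw [h2, h3]
  generalize Al L q x = α at *
  have c1' : α⁻¹ * (Rt L J x)⁻¹ = (Rt L J x)⁻¹ * α⁻¹ := (comm_inv c1.symm).symm
  have c2' : α⁻¹ * (Rt L J q)⁻¹ = (Rt L J q)⁻¹ * α⁻¹ := (comm_inv c2.symm).symm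
  calc L q * L x * α⁻¹ * (Rt L J x * Rt L J q * α)⁻¹ =
        L q * L x * α⁻¹ * (α⁻¹ * (Rt L J q)⁻¹) * (Rt L J x)⁻¹ := by group
    _ = L q * L x * (α⁻¹ * (Rt L J q)⁻¹) * α⁻¹ * (Rt L J x)⁻¹ := by
        conv_lhs => rw [c2']
        group
    _ = L q * (L x * (Rt L J q)⁻¹) * α⁻¹ * (α⁻¹ * (Rt L J x)⁻¹) := by
        conv_lhs => rw [c2']
        group
    _ = L q * ((Rt L J q)⁻¹ * L x * (α * α)) * α⁻¹ * (α⁻¹ * (Rt L J x)⁻¹) := by rw [h4, h5]
    _ = _ := by group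

end K7

/-- the end game: if all `th(a, b)` fix `b` then the loop is commutative or associative -/
theorem AL.end_game (h : AL G L J e) (hK : ∀ a b, Th L J a b b = b) :
    (∀ x, Rt L J x = L x) ∨ Assoc L := by
  have k : K7 G L J e := ⟨h.al0, hK⟩
  have hinv : ∀ g ∈ G, ∀ x y, Tx L J x = Tx L J y → Tx L J (g x) = Tx L J (g y) := by
    intro g hg x y hxy
    have hu := h.al0.fix_part hg
    have h1 : ∀ w, g w = L (g e) (((L (g e))⁻¹ * g) w) := by
      intro w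
      rw [Perm.mul_apply, apply_inv']
    rw [h1 x, h1 y, k.T_mul, k.T_mul, k.Tx_conj hu.1 hu.2, k.Tx_conj hu.1 hu.2, hxy]
  rcases h.prim (fun x y => Tx L J x = Tx L J y)
    ⟨fun _ => rfl, fun hh => hh.symm, fun hh hk => hh.trans hk⟩ hinv with hr | hr
  · right
    intro x y z
    apply hr
    rw [k.T_mul, k.T_mul, k.T_mul, k.T_mul, mul_assoc]
  · left
    intro x
    have h1 := hr x e
    have h2 : Tx L J e = 1 := by
      unfold Tx Rt
      rw [h.Je, h.al0.Le1, mul_one, h.al0.JJ1]; group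
    have h3 := h.al0.L_eq x
    rw [h1, h2, one_mul] at h3
    exact h3.symm

end ALoop
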